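import Pool.Agent.V11147.Cub

namespace Pool.Agent.Results.MP_50d982_co.OrderThree

open Pool.Agent.V11147.Cub

/-- a latin `m`-cube of order `q` -/
def IsLatinCube (q m : ℕ) (f : (Fin m → Fin q) → Fin q) : Prop :=
  ∀ (x : Fin m → Fin q) (j : Fin m), Function.Injective fun a => f (Function.update x j a)

/-- the array with layers `C i`, `i : Fin k`, of dimension `m + 1`, has a transversal
(`q` cells in distinct layers) -/
def HasTransversal (q k m : ℕ) (C : Fin k → (Fin m → Fin q) → Fin q) : Prop :=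
  ∃ (i : Fin q → Fin k) (x : Fin q → Fin m → Fin q), Function.Injective i ∧
    (∀ j, Function.Injective fun t => x t j) ∧ Function.Injective fun t => C (i t) (x t)

theorem result (m : ℕ) (hm : 0 < m) (k : ℕ) (hk : 3 ≤ k)
    (C : Fin k → (Fin m → Fin 3) → Fin 3) (hC : ∀ i, IsLatinCube 3 m (C i)) :
    (¬ HasTransversal 3 k m C ↔
      ∃ (f : (Fin m → Fin 3) → Fin 3) (c : Fin k → Fin 3), IsLatinCube 3 m f ∧
        (∀ i x, C i x = f x + c i) ∧
        ∀ p q r, p ≠ q → q ≠ r → p ≠ r → c p + c q + c r ≠ 0) ∧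
    (5 ≤ k → HasTransversal 3 k m C) := by
  haveI : Nonempty (Fin m) := ⟨⟨0, hm⟩⟩
  exact classify (ι := Fin m) hk C hC

end Pool.Agent.Results.MP_50d982_co.OrderThree
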